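import Pool.Agent.H526R3.ML.Grp

set_option autoImplicit false

namespace Pool.Agent.H526R3.ML

open Pool.Agent.H687R3.AL Pool.Agent.H687R3.AL.AL Equiv

/-- A surjective homomorphism of commutative automorphic loops of exponent two whose kernel is a
group. -/
structure Ext (Q Q' : Type) where
  A : AL Q
  B : AL Q'
  f : Q → Q'
  hf : ∀ x y, f (A.op x y) = B.op (f x) (f y)
  surj : Function.Surjective f
  hA : CE A
  hB : CE B
  hass : ∀ m n p, f m = B.e → f n = B.e → f p = B.e → A.op (A.op m n) p = A.op m (A.op n p)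

namespace Ext

variable {Q Q' : Type} (E : Ext Q Q')

theorem f_e : E.f E.A.e = E.B.e := by
  have := E.hf E.A.e E.A.e
  rwa [E.A.idl, E.hB.exp] at this

/-- the kernel -/
def M : Type := {m : Q // E.f m = E.B.e}

instance : Add E.M := ⟨fun a b => ⟨E.A.op a.1 b.1, by rw [E.hf, a.2, b.2, E.B.idl]⟩⟩
instance : Zero E.M := ⟨⟨E.A.e, E.f_e⟩⟩
instance : Neg E.M := ⟨fun a => a⟩

noncomputable instance : AddCommGroup E.M where
  nsmul := nsmulRec
  zsmul := zsmulRec
  add_assoc a b c := Subtype.ext (E.hass _ _ _ a.2 b.2 c.2)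
  zero_add a := Subtype.ext (E.A.idl _)
  add_zero a := Subtype.ext (E.A.idr _)
  neg_add_cancel a := Subtype.ext (E.hA.exp _)
  add_comm a b := Subtype.ext (E.hA.comm _ _)

theorem add_val (a b : E.M) : (a + b).1 = E.A.op a.1 b.1 := rfl
theorem zero_val : (0 : E.M).1 = E.A.e := rfl
theorem add_self (a : E.M) : a + a = 0 := Subtype.ext (E.hA.exp _)

theorem f_L (x z : Q) : E.f (E.A.L x z) = E.B.L (E.f x) (E.f z) := E.hf x z

theorem f_Linv (x z : Q) : E.f ((E.A.L x)⁻¹ z) = (E.B.L (E.f x))⁻¹ (E.f z) := by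
  rw [Perm.eq_inv_iff_eq, ← f_L]
  simp

theorem f_TT (x y z : Q) : E.f (TT E.A x y z) = TT E.B (E.f x) (E.f y) (E.f z) := by
  unfold TT
  simp only [Perm.mul_apply]
  rw [f_Linv, f_L, f_L, E.hf]

theorem f_jj (x y z : Q) : E.f (jj E.A x y z) = jj E.B (E.f x) (E.f y) (E.f z) := by
  unfold jj
  simp only [Perm.mul_apply]
  rw [f_Linv, f_Linv, f_L, f_L]

/-- automorphisms compatible with `f` -/
def H0 : Subgroup (Perm Q) where
  carrier := {h | h ∈ E.A.Aut ∧ ∃ h' : Perm Q', ∀ z, E.f (h z) = h' (E.f z)}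
  mul_mem' := by
    rintro a b ⟨ha, a', ha'⟩ ⟨hb, b', hb'⟩
    exact ⟨E.A.Aut.mul_mem ha hb, a' * b', fun z => by
      rw [Perm.mul_apply, ha', hb', Perm.mul_apply]⟩
  one_mem' := ⟨E.A.Aut.one_mem, 1, fun z => rfl⟩
  inv_mem' := by
    rintro a ⟨ha, a', ha'⟩
    refine ⟨E.A.Aut.inv_mem ha, a'⁻¹, fun z => ?_⟩
    rw [Perm.eq_inv_iff_eq, ← ha']
    simp

theorem TT_H0 (x y : Q) : TT E.A x y ∈ E.H0 :=
  ⟨TT_mem E.A x y, _, fun z => E.f_TT x y z⟩

theorem jj_H0 (x y : Q) : jj E.A x y ∈ E.H0 :=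
  ⟨jj_mem E.hA x y, _, fun z => E.f_jj x y z⟩

theorem K_H0 : K E.A ≤ E.H0 := by
  rw [K, Subgroup.closure_le]
  rintro _ ⟨x, y, rfl⟩
  exact E.jj_H0 x y

theorem H0_ker {h : Perm Q} (hh : h ∈ E.H0) {m : Q} (hm : E.f m = E.B.e) : E.f (h m) = E.B.e := by
  obtain ⟨h1, h', h2⟩ := hh
  rw [h2, hm, ← E.f_e, ← h2, aut_e h1]

/-- restriction to the kernel -/
noncomputable def rho : E.H0 →* AddMonoid.End E.M where
  toFun h :=
    { toFun := fun m => ⟨h.1 m.1, E.H0_ker h.2 m.2⟩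
      map_zero' := Subtype.ext (aut_e h.2.1)
      map_add' := fun a b => Subtype.ext (aut_apply h.2.1 _ _) }
  map_one' := by ext m; rfl
  map_mul' a b := by ext m; rfl

theorem rho_val (h : E.H0) (m : E.M) : (E.rho h m).1 = h.1 m.1 := rfl

noncomputable def J (x y : Q) : AddMonoid.End E.M := E.rho ⟨_, E.jj_H0 x y⟩
noncomputable def T (x y : Q) : AddMonoid.End E.M := E.rho ⟨_, E.TT_H0 x y⟩
noncomputable def Ti (x y : Q) : AddMonoid.End E.M := E.rho ⟨_, E.H0.inv_mem (E.TT_H0 x y)⟩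

theorem J_val (x y : Q) (m : E.M) : (E.J x y m).1 = jj E.A x y m.1 := rfl
theorem T_val (x y : Q) (m : E.M) : (E.T x y m).1 = TT E.A x y m.1 := rfl

theorem T_Ti (x y : Q) : E.T x y * E.Ti x y = 1 := by
  unfold T Ti
  rw [← map_mul, ← E.rho.map_one]
  congr 1
  exact Subtype.ext (mul_inv_cancel _)

theorem Ti_T (x y : Q) : E.Ti x y * E.T x y = 1 := by
  unfold T Ti
  rw [← map_mul, ← E.rho.map_one]
  congr 1
  exact Subtype.ext (inv_mul_cancel _)

theorem J_sq (x y : Q) : E.J x y * E.J x y = 1 := by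
  unfold J
  rw [← map_mul, ← E.rho.map_one]
  congr 1
  exact Subtype.ext (jj_sq E.hA x y)

theorem J_eq (x y : Q) : E.J x y = E.Ti y x * E.T x y := by
  unfold J T Ti
  rw [← map_mul]
  congr 1
  exact Subtype.ext (jj_eq E.hA x y)

theorem two_eq : (2 : AddMonoid.End E.M) = 0 := by
  ext m
  have : (2 : AddMonoid.End E.M) = 1 + 1 := by norm_num
  rw [this]
  exact E.add_self m

theorem add_self' (a : AddMonoid.End E.M) : a + a = 0 := by
  ext m
  exact E.add_self (a m)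

/-- conjugation -/
theorem conj_J (h : E.H0) (x y : Q) :
    E.rho h * E.J x y = E.J (h.1 x) (h.1 y) * E.rho h := by
  unfold J
  rw [← map_mul, ← map_mul]
  congr 1
  apply Subtype.ext
  change h.1 * jj E.A x y = jj E.A (h.1 x) (h.1 y) * h.1
  rw [← conj_jj h.2.1]
  group

/-- `w (x u) = x (w + J u)` for `w, u` in the kernel -/
theorem J_op (x : Q) (w u : E.M) :
    E.A.op w.1 (E.A.op x u.1) = E.A.op x (w + E.J x w.1 u).1 := jj_op E.hA x w.1 u.1

theorem T_op (x y : Q) (u : E.M) :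
    E.A.op x (E.A.op y u.1) = E.A.op (E.A.op x y) (E.T x y u).1 := (TT_op E.A x y u.1).symm

theorem opL_inj {x : Q} {u v : E.M} (h : E.A.op x u.1 = E.A.op x v.1) : u = v :=
  Subtype.ext ((E.A.bijL x).1 h)

/-- `(x m) u = x (m + T⁻¹ u)` -/
theorem op_M (x : Q) (m u : E.M) :
    E.A.op (E.A.op x m.1) u.1 = E.A.op x (m + E.Ti x m.1 u).1 := by
  have h := E.T_op x m.1 (E.Ti x m.1 u)
  have h2 : E.T x m.1 (E.Ti x m.1 u) = u := by
    have := congrArg (fun g : AddMonoid.End E.M => g u) (E.T_Ti x m.1)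
    exact this
  rw [h2] at h
  rw [← h]
  rfl

theorem alpha (x : Q) (m w u : E.M) :
    w + E.J x w.1 (m + E.Ti x m.1 u) =
      m + E.Ti x m.1 (w + E.J (E.A.op x m.1) w.1 u) := by
  apply E.opL_inj (x := x)
  rw [← E.J_op, ← E.op_M, ← E.op_M, E.J_op]

theorem beta (x : Q) (m w : E.M) : w + E.J x w.1 m = m + E.Ti x m.1 w := by
  have := E.alpha x m w 0
  simpa using this

theorem J_fibre (x : Q) (m w : E.M) :
    E.J x w.1 * E.Ti x m.1 = E.Ti x m.1 * E.J (E.A.op x m.1) w.1 := by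
  ext u
  have h1 := E.alpha x m w u
  have h2 := E.beta x m w
  rw [map_add, map_add, ← add_assoc, ← add_assoc, h2] at h1
  exact add_left_cancel h1

end Ext

end Pool.Agent.H526R3.ML
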