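import Pool.Agent.H687R3.AL.Stmts

/-!

`mu a p q = a ((a \ p) (a \ q))` is totally symmetric and invariant under left translations, and
`x ⋄ y = z` iff `mu x y z = 1`. -/

set_option autoImplicit false

namespace Pool.Agent.H526R3.ML

open Pool.Agent.H687R3.AL

namespace Dia

variable {Q : Type} (A : AL Q)

/-- left division -/
noncomputable def ld (x y : Q) : Q := ((A.bijL x).2 y).choose

theorem op_ld (x y : Q) : A.op x (ld A x y) = y := ((A.bijL x).2 y).choose_spec

theorem cancel {x y z : Q} (h : A.op x y = A.op x z) : y = z := (A.bijL x).1 h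

theorem ld_op (x y : Q) : ld A x (A.op x y) = y := cancel A (op_ld A x _)

/-- the ternary operation -/
noncomputable def mu (a p q : Q) : Q := A.op a (A.op (ld A a p) (ld A a q))

theorem mu_op (a u v : Q) : mu A a (A.op a u) (A.op a v) = A.op a (A.op u v) := by
  unfold mu; rw [ld_op, ld_op]

theorem mu_e (p q : Q) : mu A A.e p q = A.op p q := by
  have h := mu_op A A.e p q
  rwa [A.idl, A.idl, A.idl] at h

theorem op_mu (t a p q : Q) :
    A.op t (mu A a p q) = mu A (A.op t a) (A.op t p) (A.op t q) := by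
  unfold mu
  refine (A.autL a t (ld A a p) (ld A a q) _ _ ?_ ?_).symm
  · rw [op_ld, op_ld]
  · rw [op_ld, op_ld]

variable {A}

theorem mu_comm (hc : ∀ x y, A.op x y = A.op y x) (a p q : Q) : mu A a p q = mu A a q p := by
  unfold mu; rw [hc (ld A a p)]

theorem mu_swap (h2 : ∀ x, A.op x x = A.e)
    (a p q : Q) : mu A a p q = mu A p a q := by
  obtain ⟨u, rfl⟩ : ∃ u, p = A.op a u := ⟨ld A a p, (op_ld A a p).symm⟩
  obtain ⟨v, rfl⟩ : ∃ v, q = A.op a v := ⟨ld A a q, (op_ld A a q).symm⟩
  rw [mu_op]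
  have h := A.autL u a u (ld A u v) (ld A (A.op a u) a) (ld A (A.op a u) (A.op a v)) ?_ ?_
  · unfold mu
    rw [h, op_ld]
  · rw [op_ld, h2, A.idr]
  · rw [op_ld, op_ld]

theorem mu_cancel {a p q q' : Q} (h : mu A a p q = mu A a p q') : q = q' := by
  unfold mu at h
  have h1 := cancel A (cancel A h)
  have h3 := congrArg (A.op a) h1
  rwa [op_ld, op_ld] at h3

end Dia


end Pool.Agent.H526R3.ML
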