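import Pool.Agent.H687R3.AL.Elem
import Pool.Agent.H687R3.AL.Diamond
import Pool.Agent.H687R3.AL.BaerSuzuki
import Pool.Agent.H526R3.ML.Mu

set_option autoImplicit false

namespace Pool.Agent.H526R3.ML

open Pool.Agent.H687R3.AL Pool.Agent.H687R3.AL.AL Equiv

/-- commutative of exponent two -/
structure CE {Q : Type} (A : AL Q) : Prop where
  comm : ∀ x y, A.op x y = A.op y x
  exp : ∀ x, A.op x x = A.e

variable {Q : Type} (A : AL Q)

noncomputable def TT (x y : Q) : Perm Q := (A.L (A.op x y))⁻¹ * A.L x * A.L y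
noncomputable def jj (x y : Q) : Perm Q := (A.L x)⁻¹ * (A.L y)⁻¹ * A.L x * A.L y

theorem TT_mem (x y : Q) : TT A x y ∈ A.Aut := theta_mem x y

theorem TT_op (x y z : Q) : A.op (A.op x y) (TT A x y z) = A.op x (A.op y z) := by
  have : A.L (A.op x y) * TT A x y = A.L x * A.L y := by unfold TT; group
  exact congrArg (fun g : Perm Q => g z) this

theorem TT_fix (x y : Q) : TT A x y x = x := theta_fix x y

theorem TT_comm (x y : Q) : TT A x y * A.L x = A.L x * TT A x y := by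
  have := aut_L (TT_mem A x y) x
  rwa [TT_fix] at this

variable {A}

theorem jj_eq (hA : CE A) (x y : Q) : jj A x y = (TT A y x)⁻¹ * TT A x y := by
  unfold jj TT
  rw [hA.comm y x]
  group

theorem jj_mem (hA : CE A) (x y : Q) : jj A x y ∈ A.Aut := by
  rw [jj_eq hA]
  exact A.Aut.mul_mem (A.Aut.inv_mem (TT_mem A y x)) (TT_mem A x y)

theorem conj_mu (hA : CE A) (x y w : Q) :
    (A.L x)⁻¹ (A.op (A.op x y) (A.op x w)) = Dia.mu A x y w := by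
  rw [Perm.inv_eq_iff_eq, L_apply, Dia.op_mu, hA.exp, Dia.mu_e]

theorem LX (hA : CE A) (x y : Q) :
    (A.L x)⁻¹ * A.L (A.op x y) * A.L x = (A.L y)⁻¹ * A.L (A.op x y) * A.L y := by
  ext w
  have h1 := conj_mu hA x y w
  have h2 := conj_mu hA y x w
  rw [hA.comm y x, Dia.mu_swap hA.exp] at h2
  exact h1.trans h2.symm

theorem grp_aux {G : Type} [Group G] (X Y P : G) (h1 : P⁻¹ * X * Y * X = X * (P⁻¹ * X * Y))
    (h2 : P⁻¹ * Y * X * Y = Y * (P⁻¹ * Y * X)) (h3 : X⁻¹ * P * X = Y⁻¹ * P * Y) :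
    (X⁻¹ * Y⁻¹ * X * Y) * (X⁻¹ * Y⁻¹ * X * Y) = 1 := by
  have e1 : X⁻¹ * P⁻¹ * X = P⁻¹ * X * Y * X⁻¹ * Y⁻¹ := by
    calc X⁻¹ * P⁻¹ * X = X⁻¹ * (P⁻¹ * X * Y * X) * X⁻¹ * Y⁻¹ := by group
      _ = _ := by rw [h1]; group
  have e2 : Y⁻¹ * P⁻¹ * Y = P⁻¹ * Y * X * Y⁻¹ * X⁻¹ := by
    calc Y⁻¹ * P⁻¹ * Y = Y⁻¹ * (P⁻¹ * Y * X * Y) * Y⁻¹ * X⁻¹ := by group
      _ = _ := by rw [h2]; group
  have e3 : X⁻¹ * P⁻¹ * X = Y⁻¹ * P⁻¹ * Y := by
    have := congrArg (fun g => g⁻¹) h3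
    simp only [mul_inv_rev, inv_inv] at this
    simpa [mul_assoc] using this
  have e4 : X * Y * X⁻¹ * Y⁻¹ = Y * X * Y⁻¹ * X⁻¹ := by
    have : P⁻¹ * (X * Y * X⁻¹ * Y⁻¹) = P⁻¹ * (Y * X * Y⁻¹ * X⁻¹) := by
      calc P⁻¹ * (X * Y * X⁻¹ * Y⁻¹) = P⁻¹ * X * Y * X⁻¹ * Y⁻¹ := by group
        _ = P⁻¹ * Y * X * Y⁻¹ * X⁻¹ := by rw [← e1, e3, e2]
        _ = _ := by group
    exact mul_left_cancel this
  calc (X⁻¹ * Y⁻¹ * X * Y) * (X⁻¹ * Y⁻¹ * X * Y)
      = X⁻¹ * Y⁻¹ * (X * Y * X⁻¹ * Y⁻¹) * X * Y := by group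
    _ = 1 := by rw [e4]; group

theorem jj_sq (hA : CE A) (x y : Q) : jj A x y * jj A x y = 1 := by
  apply grp_aux _ _ (A.L (A.op x y))
  · exact TT_comm A x y
  · have := TT_comm A y x
    unfold TT at this
    rwa [hA.comm y x] at this
  · exact LX hA x y

/-- `w (x z) = x (w (j z))` -/
theorem jj_op (hA : CE A) (x w z : Q) :
    A.op w (A.op x z) = A.op x (A.op w (jj A x w z)) := by
  have h : A.L w * A.L x = A.L x * A.L w * jj A x w := by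
    have h1 : jj A x w = (jj A x w)⁻¹ := eq_inv_of_mul_eq_one_left (jj_sq hA x w)
    rw [h1]; unfold jj; group
  exact congrArg (fun g : Perm Q => g z) h

variable (A)
/-- the group generated by the `jj` -/
def K : Subgroup (Perm Q) := Subgroup.closure {g | ∃ x y, g = jj A x y}
variable {A}

theorem jj_mem_K (x y : Q) : jj A x y ∈ K A := Subgroup.subset_closure ⟨x, y, rfl⟩

theorem K_le (hA : CE A) : K A ≤ A.Aut := by
  rw [K, Subgroup.closure_le]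
  rintro _ ⟨x, y, rfl⟩
  exact jj_mem hA x y

theorem conj_jj {h : Perm Q} (hh : h ∈ A.Aut) (x y : Q) : h * jj A x y * h⁻¹ = jj A (h x) (h y) := by
  have e : ∀ x, A.L (h x) = h * A.L x * h⁻¹ := fun x => by rw [aut_L hh]; group
  unfold jj
  rw [e, e]; group

end Pool.Agent.H526R3.ML
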