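import Pool.Agent.H526R3.ML.Ext

set_option autoImplicit false

namespace Pool.Agent.H526R3.ML

open Pool.Agent.H687R3.AL Pool.Agent.H687R3.AL.AL Equiv

theorem ring_aux1 {R : Type} [Ring R] (h2 : ∀ a : R, a + a = 0) (a b c : R) (ha : a * a = 1)
    (hb : b * b = 1) (hc : c * c = 1) (h : c = a + b + 1) : a * b = b * a := by
  have h1 : c * c = a * a + b * b + 1 + (a * b + b * a) + (a + a) + (b + b) := by
    rw [h]; noncomm_ring
  rw [hc, ha, hb, h2 a, h2 b, h2 (1 : R)] at h1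
  have h3 : a * b + b * a = 0 := by
    have : (1 : R) = 1 + (a * b + b * a) := by
      calc (1 : R) = 0 + 1 + (a * b + b * a) + 0 + 0 := h1
        _ = _ := by abel
    exact (left_eq_add.1 this)
  have h4 := h2 (b * a)
  calc a * b = a * b + (b * a + b * a) := by rw [h4, add_zero]
    _ = (a * b + b * a) + b * a := by abel
    _ = b * a := by rw [h3, zero_add]

theorem odd_aux {R : Type} [Monoid R] (g : R) {r : ℕ} (hr : r.Prime) (hr2 : r ≠ 2)
    (h1 : g ^ r = 1) {k : ℕ} (h2 : g ^ (2 ^ k) = 1) : g = 1 := by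
  have d1 := orderOf_dvd_of_pow_eq_one h1
  have d2 := orderOf_dvd_of_pow_eq_one h2
  have : Nat.Coprime r (2 ^ k) := by
    apply Nat.Coprime.pow_right
    exact (Nat.coprime_primes hr Nat.prime_two).2 hr2
  have h3 : orderOf g ∣ 1 := this ▸ Nat.dvd_gcd d1 d2
  exact orderOf_eq_one_iff.1 (Nat.dvd_one.1 h3)

namespace Ext

variable {Q Q' : Type} (E : Ext Q Q')

theorem J_add (x : Q) (w v : E.M) :
    E.J x (w + v).1 = E.J x w.1 + E.J x v.1 + 1 := by
  ext m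
  have key : ∀ w : E.M, E.J x w.1 m = w + m + E.Ti x m.1 w := by
    intro w
    have h1 := E.beta x m w
    have h2 : w + (w + E.J x w.1 m) = w + (m + E.Ti x m.1 w) := by rw [h1]
    rw [← add_assoc, E.add_self, zero_add, ← add_assoc] at h2
    exact h2
  have h3 : (E.J x w.1 + E.J x v.1 + 1) m = E.J x w.1 m + E.J x v.1 m + m := rfl
  rw [key, h3, key, key, map_add]
  have h4 : w + m + E.Ti x m.1 w + (v + m + E.Ti x m.1 v) + m
      = w + v + m + (E.Ti x m.1 w + E.Ti x m.1 v) + (m + m) := by abel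
  rw [h4, E.add_self, add_zero]

theorem J_comm (x : Q) (w v : E.M) : E.J x w.1 * E.J x v.1 = E.J x v.1 * E.J x w.1 :=
  ring_aux1 E.add_self' _ _ _ (E.J_sq _ _) (E.J_sq _ _) (E.J_sq _ _) (E.J_add x w v)

/-- `J (x m) w = J x v` for some `v` -/
theorem J_move (x : Q) (m w : E.M) : ∃ v : E.M, E.J (E.A.op x m.1) w.1 = E.J x v.1 := by
  refine ⟨E.T x m.1 w, ?_⟩
  have h1 := E.J_fibre x m w
  have h2 := E.conj_J ⟨_, E.TT_H0 x m.1⟩ x w.1
  change E.T x m.1 * E.J x w.1 = E.J (TT E.A x m.1 x) (TT E.A x m.1 w.1) * E.T x m.1 at h2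
  rw [TT_fix] at h2
  have h3 := E.T_Ti x m.1
  calc E.J (E.A.op x m.1) w.1 = E.T x m.1 * E.Ti x m.1 * E.J (E.A.op x m.1) w.1 := by
        rw [h3, one_mul]
    _ = E.T x m.1 * E.J x w.1 * E.Ti x m.1 := by rw [mul_assoc, ← h1, mul_assoc]
    _ = _ := by rw [h2, mul_assoc, h3, mul_one]; rfl

theorem mem_fibre {x y : Q} (h : E.f x = E.f y) : ∃ m : E.M, E.A.op x m.1 = y := by
  obtain ⟨m, hm⟩ := (E.A.bijL x).2 y
  refine ⟨⟨m, ?_⟩, hm⟩
  have h1 := E.hf x m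
  have hm' : E.A.op x m = y := hm
  rw [hm', ← h] at h1
  apply (E.B.bijL (E.f x)).1
  change E.B.op _ _ = E.B.op _ _
  rw [← h1, E.B.idr]

theorem kl1 (x : Q) (w : E.M) {g : Perm Q} (hg : g ∈ E.H0) (hfg : ∀ z, E.f (g z) = E.f z)
    {r : ℕ} (hr : r.Prime) (hr2 : r ≠ 2) (hgr : g ^ r = 1)
    (hinv : jj E.A x w.1 * g * jj E.A x w.1 = g⁻¹) (m : E.M) : g m.1 = m.1 := by
  set G : AddMonoid.End E.M := E.rho ⟨g, hg⟩ with hG
  set Gi : AddMonoid.End E.M := E.rho ⟨g⁻¹, E.H0.inv_mem hg⟩ with hGi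
  have hGGi : G * Gi = 1 := by
    rw [hG, hGi, ← map_mul, ← E.rho.map_one]; congr 1; exact Subtype.ext (mul_inv_cancel _)
  have hGiG : Gi * G = 1 := by
    rw [hG, hGi, ← map_mul, ← E.rho.map_one]; congr 1; exact Subtype.ext (inv_mul_cancel _)
  set t := E.J x w.1 with ht
  have htt : t * t = 1 := E.J_sq _ _
  have htG : t * G * t = Gi := by
    rw [ht, hG, hGi]; unfold J
    rw [← map_mul, ← map_mul]; congr 1; exact Subtype.ext hinv
  obtain ⟨n, hn⟩ := E.mem_fibre (x := x) (y := g x) (hfg x).symm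
  -- `G t Gi`
  have h1 : G * t = E.J (g x) (g w.1) * G := E.conj_J ⟨g, hg⟩ x w.1
  obtain ⟨v, hv⟩ := E.J_move x n ⟨g w.1, E.H0_ker hg w.2⟩
  rw [hn] at hv
  change E.J (g x) (g w.1) = E.J x v.1 at hv
  rw [hv] at h1
  have h2 : G * t * Gi = E.J x v.1 := by rw [h1, mul_assoc, hGGi, mul_one]
  have h3 : t * (G * t * Gi) = (G * t * Gi) * t := by rw [h2]; exact E.J_comm x w v
  have h4 : t * (G * t * Gi) = Gi * Gi := by rw [← mul_assoc, ← mul_assoc, htG]
  have h5 : Gi * t = t * G := by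
    rw [← htG, mul_assoc, htt, mul_one]
  have h6 : (G * t * Gi) * t = G * G := by
    rw [mul_assoc, h5, ← mul_assoc, mul_assoc G t t, htt, mul_one]
  rw [h4, h6] at h3
  have h7 : G ^ (2 ^ 2) = 1 := by
    calc G ^ (2 ^ 2) = G * G * (G * G) := by
          rw [show (2 : ℕ) ^ 2 = 4 by norm_num]; simp only [pow_succ, pow_zero, one_mul, mul_assoc]
      _ = G * G * (Gi * Gi) := by rw [← h3]
      _ = G * (G * Gi) * Gi := by simp only [mul_assoc]
      _ = 1 := by rw [hGGi, mul_one, hGGi]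
  have h8 : G ^ r = 1 := by
    rw [hG, ← map_pow, ← E.rho.map_one]; congr 1; exact Subtype.ext hgr
  have h9 := odd_aux G hr hr2 h8 h7
  have : (G m).1 = g m.1 := rfl
  rw [← this, h9]; rfl

theorem card_M [Finite Q] : ∃ k : ℕ, Nat.card E.M = 2 ^ k := by
  have : Finite E.M := Subtype.finite
  have : Finite (Multiplicative E.M) := this
  have hp : IsPGroup 2 (Multiplicative E.M) := by
    intro a
    refine ⟨1, ?_⟩
    rw [pow_one, pow_two]
    exact E.add_self (Multiplicative.toAdd a)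
  have : Fact (Nat.Prime 2) := ⟨Nat.prime_two⟩
  obtain ⟨k, hk⟩ := (IsPGroup.iff_card (p := 2) (G := Multiplicative E.M)).1 hp
  exact ⟨k, hk⟩

theorem exists_fixed [Finite Q] {g : Perm Q} (hfg : ∀ z, E.f (g z) = E.f z)
    {r : ℕ} (hr : r.Prime) (hr2 : r ≠ 2) (hgr : g ^ r = 1) (z : Q) :
    ∃ y, E.f y = E.f z ∧ g y = y := by
  classical
  have : Fact r.Prime := ⟨hr⟩
  let P : Q → Prop := fun y => E.f y = E.f z
  have : Fintype {y // P y} := Fintype.ofFinite _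
  have hg : ∀ y, P (g y) ↔ P y := fun y => by
    change E.f (g y) = _ ↔ E.f y = _
    rw [hfg]
  have hcard : Nat.card {y // P y} = Nat.card E.M := by
    symm
    refine Nat.card_eq_of_bijective (fun m : E.M => (⟨E.A.op z m.1, ?_⟩ : {y // P y})) ⟨?_, ?_⟩
    · change E.f _ = _; rw [E.hf, m.2, E.B.idr]
    · intro a b hab
      exact E.opL_inj (congrArg Subtype.val hab)
    · rintro ⟨y, hy⟩
      obtain ⟨m, hm⟩ := E.mem_fibre (x := z) (y := y) (Eq.symm hy)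
      exact ⟨m, Subtype.ext hm⟩
  obtain ⟨k, hk⟩ := E.card_M
  have hnd : ¬ r ∣ Fintype.card {y // P y} := by
    rw [← Nat.card_eq_fintype_card, hcard, hk]
    intro h
    exact hr2 ((Nat.prime_dvd_prime_iff_eq hr Nat.prime_two).1 (hr.dvd_of_dvd_pow h))
  obtain ⟨y, hy⟩ := Equiv.Perm.exists_fixed_point_of_prime (p := r) (n := 1) hnd
    (σ := g.subtypePerm (p := P) hg) (by
      rw [pow_one, Equiv.Perm.subtypePerm_pow]
      ext y
      simp [hgr])
  exact ⟨y.1, y.2, congrArg Subtype.val hy⟩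

theorem eq_one [Finite Q] {g : Perm Q} (hg : g ∈ E.H0) (hfg : ∀ z, E.f (g z) = E.f z)
    {r : ℕ} (hr : r.Prime) (hr2 : r ≠ 2) (hgr : g ^ r = 1) (hM : ∀ m : E.M, g m.1 = m.1) :
    g = 1 := by
  ext z
  obtain ⟨y, hy, hgy⟩ := E.exists_fixed hfg hr hr2 hgr z
  obtain ⟨m, hm⟩ := E.mem_fibre (x := y) (y := z) hy
  rw [← hm, aut_apply hg.1, hgy, hM]
  rfl

theorem triv_quot [Finite Q] (hB : IsPGroup 2 (K E.B)) {g : Perm Q} (hg : g ∈ K E.A)
    {r : ℕ} (hr : r.Prime) (hr2 : r ≠ 2) (hgr : g ^ r = 1) (z : Q) : E.f (g z) = E.f z := by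
  have h1 : ∃ h' ∈ K E.B, ∀ z, E.f (g z) = h' (E.f z) := by
    refine Subgroup.closure_induction (p := fun g _ => ∃ h' ∈ K E.B, ∀ z, E.f (g z) = h' (E.f z))
      ?_ ?_ ?_ ?_ hg
    · rintro _ ⟨x, y, rfl⟩
      exact ⟨_, jj_mem_K _ _, fun z => E.f_jj x y z⟩
    · exact ⟨1, (K E.B).one_mem, fun z => rfl⟩
    · rintro a b _ _ ⟨a', ha, ha'⟩ ⟨b', hb, hb'⟩
      exact ⟨a' * b', (K E.B).mul_mem ha hb, fun z => by
        rw [Perm.mul_apply, ha', hb', Perm.mul_apply]⟩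
    · rintro a _ ⟨a', ha, ha'⟩
      refine ⟨a'⁻¹, (K E.B).inv_mem ha, fun z => ?_⟩
      rw [Perm.eq_inv_iff_eq, ← ha']
      simp
  obtain ⟨h', hh', hz⟩ := h1
  have h2 : ∀ n : ℕ, ∀ z, E.f ((g ^ n) z) = (h' ^ n) (E.f z) := by
    intro n
    induction n with
    | zero => intro z; rfl
    | succ n ih => intro z; rw [pow_succ, Perm.mul_apply, ih, hz, pow_succ, Perm.mul_apply]
  have h3 : h' ^ r = 1 := by
    ext y
    obtain ⟨z, rfl⟩ := E.surj y
    rw [← h2, hgr]; rfl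
  obtain ⟨k, hk⟩ := hB ⟨h', hh'⟩
  have h4 : h' ^ (2 ^ k) = 1 := congrArg Subtype.val hk
  rw [hz, odd_aux h' hr hr2 h3 h4]; rfl

end Ext

end Pool.Agent.H526R3.ML
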