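import Pool.Agent.H526R3.ML.Key1

set_option autoImplicit false

namespace Pool.Agent.H526R3.ML

open Pool.Agent.H687R3.AL Pool.Agent.H687R3.AL.AL Equiv

theorem fam {R M : Type} [Ring R] (h2 : ∀ a : R, a + a = 0) [AddCommGroup M] (κ : M → R) (k0 : R)
    (hκ : ∀ m, κ m * κ m = 1) (hadd : ∀ m m', κ (m + m') = κ m + κ m' + k0) (G Gi : R)
    (hG : G * Gi = 1) (σ : M → M) (hσ : ∀ m, G * κ m = κ (σ m) * G) (m : M) (r : ℕ)
    (hr : Odd r) (hσr : σ^[r] m = m)
    (hcom : G * (κ m * κ (σ m)) = (κ m * κ (σ m)) * G) : κ m * κ (σ m) = 1 := by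
  obtain ⟨α, hα⟩ : ∃ α, α = κ m * κ (σ m) := ⟨_, rfl⟩
  rw [← hα] at hcom ⊢
  have hcomm : ∀ i : ℕ, G * α ^ i = α ^ i * G := fun i => ((show Commute G α from hcom).pow_right i)
  have c4 : ∀ i : ℕ, κ (σ^[i] m) = κ m * α ^ i := by
    intro i
    induction i with
    | zero => simp
    | succ i ih =>
      rw [Function.iterate_succ_apply']
      have h1 : κ (σ (σ^[i] m)) * G = κ (σ m) * α ^ i * G := by
        rw [← hσ, ih, ← mul_assoc, hσ, mul_assoc, hcomm, ← mul_assoc]
      have h3 : κ (σ (σ^[i] m)) = κ (σ m) * α ^ i := by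
        have := congrArg (fun a => a * Gi) h1
        simp only [mul_assoc, hG, mul_one] at this
        exact this
      calc κ (σ (σ^[i] m)) = κ m * κ m * κ (σ m) * α ^ i := by rw [h3, hκ, one_mul]
        _ = κ m * (κ m * κ (σ m)) * α ^ i := by simp only [mul_assoc]
        _ = κ m * α ^ (i + 1) := by rw [← hα, pow_succ', mul_assoc]
  have hαr : α ^ r = 1 := by
    have := c4 r
    rw [hσr] at this
    have h := congrArg (fun a => κ m * a) this
    simp only [← mul_assoc, hκ, one_mul] at h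
    exact h.symm
  have h0 : κ 0 = k0 := by
    have := hadd 0 0
    rw [add_zero, h2, zero_add] at this
    exact this
  have hC : ∀ N : ℕ, κ (∑ i ∈ Finset.range N, σ^[i] m) + k0 =
      ∑ i ∈ Finset.range N, (κ (σ^[i] m) + k0) := by
    intro N
    induction N with
    | zero => simp [h0, h2]
    | succ N ih =>
      rw [Finset.sum_range_succ, Finset.sum_range_succ, ← ih, hadd]
      abel
  have h3 : ∑ i ∈ Finset.range r, (κ (σ^[i] m) + k0) =
      κ m * (∑ i ∈ Finset.range r, α ^ i) + k0 := by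
    rw [Finset.sum_add_distrib, Finset.mul_sum]
    congr 1
    · exact Finset.sum_congr rfl fun i _ => c4 i
    · rw [Finset.sum_const, Finset.card_range]
      obtain ⟨s, hs⟩ := hr
      rw [hs, add_smul, one_smul, mul_comm, mul_smul, two_smul, h2, smul_zero, zero_add]
  have h4 := (hC r).trans h3
  have h5 : κ (∑ i ∈ Finset.range r, σ^[i] m) = κ m * (∑ i ∈ Finset.range r, α ^ i) :=
    add_right_cancel h4
  obtain ⟨s, hs⟩ : ∃ s, s = ∑ i ∈ Finset.range r, σ^[i] m := ⟨_, rfl⟩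
  obtain ⟨π, hπ⟩ : ∃ π, π = ∑ i ∈ Finset.range r, α ^ i := ⟨_, rfl⟩
  rw [← hs, ← hπ] at h5
  have h6 : π = κ m * κ s := by rw [h5, ← mul_assoc, hκ, one_mul]
  have h7 : α * π = π := by
    have h8 : α * π = ∑ i ∈ Finset.range r, α ^ (i + 1) := by
      rw [hπ, Finset.mul_sum]
      exact Finset.sum_congr rfl fun i _ => (pow_succ' α i).symm
    have h9 := Finset.sum_range_succ' (fun i => α ^ i) r
    have h10 := Finset.sum_range_succ (fun i => α ^ i) r
    rw [h9] at h10
    simp only [pow_zero] at h10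
    rw [hαr] at h10
    rw [h8, hπ]
    exact add_right_cancel h10
  have h11 : π * (κ s * κ m) = 1 := by
    rw [h6, mul_assoc, ← mul_assoc (κ s), hκ, one_mul, hκ]
  calc α = α * (π * (κ s * κ m)) := by rw [h11, mul_one]
    _ = α * π * (κ s * κ m) := (mul_assoc _ _ _).symm
    _ = 1 := by rw [h7, h11]

theorem ring_main {R M : Type} [Ring R] (h2 : ∀ a : R, a + a = 0) [AddCommGroup M]
    (κ ν : M → R) (k0 : R)
    (hκ : ∀ m, κ m * κ m = 1) (hν : ∀ m, ν m * ν m = 1) (hk : k0 * k0 = 1)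
    (haddκ : ∀ m m', κ (m + m') = κ m + κ m' + k0)
    (haddν : ∀ m m', ν (m + m') = ν m + ν m' + k0)
    (hK : ∀ m n, (ν n * k0 * κ m) * (ν n * k0 * κ m) = 1)
    (G Gi : R) (hG : G * Gi = 1) (hG' : Gi * G = 1) (σ : M → M)
    (hσκ : ∀ m, G * κ m = κ (σ m) * G) (hσν : ∀ m, G * ν m = ν (σ m) * G)
    (hσk : G * k0 = k0 * G) (r : ℕ) (hr : r.Prime) (hr2 : r ≠ 2)
    (hσr : ∀ m, σ^[r] m = m) (hGr : G ^ r = 1) (m n : M)
    (hinv : (ν n * k0 * κ m) * G * (ν n * k0 * κ m) = Gi) : G = 1 := by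
  have hodd : Odd r := hr.odd_of_ne_two hr2
  -- `K = κ k0 ν`
  have c0 : ∀ m n, ν n * k0 * κ m = κ m * k0 * ν n := by
    intro m n
    have e : (ν n * k0 * κ m) * (κ m * k0 * ν n) = 1 := by
      calc (ν n * k0 * κ m) * (κ m * k0 * ν n) = ν n * (k0 * (κ m * κ m) * k0) * ν n := by
            simp only [mul_assoc]
        _ = 1 := by rw [hκ, mul_one, hk, mul_one, hν]
    calc ν n * k0 * κ m = (ν n * k0 * κ m) * ((ν n * k0 * κ m) * (κ m * k0 * ν n)) := by
          rw [e, mul_one]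
      _ = _ := by rw [← mul_assoc, hK, one_mul]
  have c1 : ∀ m n, ν n * κ m * k0 = k0 * κ m * ν n := by
    intro m n
    have := c0 m n
    calc ν n * κ m * k0 = ν n * (κ m * k0 * ν n) * ν n := by
          simp only [mul_assoc, hν, mul_one]
      _ = ν n * (ν n * k0 * κ m) * ν n := by rw [this]
      _ = ν n * ν n * (k0 * κ m * ν n) := by simp only [mul_assoc]
      _ = _ := by rw [hν, one_mul]
  -- products of two ν commute with k0 κ
  have c2 : ∀ m n n', (ν n * ν n') * (k0 * κ m) = (k0 * κ m) * (ν n * ν n') := by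
    intro m n n'
    calc (ν n * ν n') * (k0 * κ m) = ν n * (ν n' * k0 * κ m) := by simp only [mul_assoc]
      _ = ν n * κ m * k0 * ν n' := by rw [c0]; simp only [mul_assoc]
      _ = _ := by rw [c1]; simp only [mul_assoc]
  have c2' : ∀ m n n', (ν n * ν n') * (κ m * k0) = (κ m * k0) * (ν n * ν n') := by
    intro m n n'
    have h := c2 m n n'
    have e1 : (κ m * k0) * (k0 * κ m) = 1 := by
      rw [mul_assoc, ← mul_assoc k0, hk, one_mul, hκ]
    have e2 : (k0 * κ m) * (κ m * k0) = 1 := by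
      rw [mul_assoc, ← mul_assoc (κ m), hκ, one_mul, hk]
    calc (ν n * ν n') * (κ m * k0)
        = (κ m * k0) * (k0 * κ m) * (ν n * ν n') * (κ m * k0) := by rw [e1, one_mul]
      _ = (κ m * k0) * ((ν n * ν n') * (k0 * κ m)) * (κ m * k0) := by rw [h]; simp only [mul_assoc]
      _ = (κ m * k0) * (ν n * ν n') * ((k0 * κ m) * (κ m * k0)) := by simp only [mul_assoc]
      _ = _ := by rw [e2, mul_one]
  have hKK := hK m n
  obtain ⟨K, hKdef⟩ : ∃ K, K = ν n * k0 * κ m := ⟨_, rfl⟩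
  obtain ⟨α, hα⟩ : ∃ α, α = κ m * κ (σ m) := ⟨_, rfl⟩
  obtain ⟨β, hβ⟩ : ∃ β, β = ν n * ν (σ n) := ⟨_, rfl⟩
  rw [← hKdef] at hKK hinv
  have hGK : G * K = (ν (σ n) * k0 * κ (σ m)) * G := by
    rw [hKdef]
    calc G * (ν n * k0 * κ m) = G * ν n * k0 * κ m := by simp only [mul_assoc]
      _ = ν (σ n) * (G * k0) * κ m := by rw [hσν]; simp only [mul_assoc]
      _ = ν (σ n) * k0 * (G * κ m) := by rw [hσk]; simp only [mul_assoc]
      _ = _ := by rw [hσκ]; simp only [mul_assoc]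
  have hGK2 : G * K = K * Gi := by
    calc G * K = K * K * (G * K) := by rw [hKK, one_mul]
      _ = K * (K * G * K) := by simp only [mul_assoc]
      _ = K * Gi := by rw [hinv]
  have hab : Gi * Gi = α * β := by
    have e1 : (ν (σ n) * k0 * κ (σ m)) = K * Gi * Gi := by
      have := congrArg (fun a => a * Gi) (hGK.symm.trans hGK2)
      simpa only [mul_assoc, hG, mul_one] using this
    have e2 : K * (ν (σ n) * k0 * κ (σ m)) = Gi * Gi := by
      rw [e1, ← mul_assoc, ← mul_assoc, hKK, one_mul]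
    rw [← e2, hKdef, c0]
    calc κ m * k0 * ν n * (ν (σ n) * k0 * κ (σ m))
        = κ m * k0 * ((ν n * ν (σ n)) * (k0 * κ (σ m))) := by simp only [mul_assoc]
      _ = κ m * (k0 * k0) * κ (σ m) * (ν n * ν (σ n)) := by rw [c2]; simp only [mul_assoc]
      _ = α * β := by rw [hk, mul_one, ← hα, ← hβ]
  have hcab : α * β = β * α := by
    have e : α = (κ m * k0) * (k0 * κ (σ m)) := by
      rw [hα, mul_assoc, ← mul_assoc k0, hk, one_mul]
    calc α * β = (κ m * k0) * ((k0 * κ (σ m)) * (ν n * ν (σ n))) := by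
          rw [e, hβ]; simp only [mul_assoc]
      _ = (κ m * k0) * (ν n * ν (σ n)) * (k0 * κ (σ m)) := by rw [← c2]; simp only [mul_assoc]
      _ = β * α := by rw [← c2', e, hβ]; simp only [mul_assoc]
  have hGir : Gi ^ r = 1 := by
    have : (G ^ r) * (Gi ^ r) = 1 := by
      have hc : Commute G Gi := hG.trans hG'.symm
      rw [← hc.mul_pow, hG, one_pow]
    rwa [hGr, one_mul] at this
  obtain ⟨s, hs⟩ := hodd
  have hGs : (Gi * Gi) ^ s = G := by
    have e : (Gi * Gi) ^ s * Gi = 1 := by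
      rw [← pow_two, ← pow_mul, ← pow_succ, ← hs, hGir]
    calc (Gi * Gi) ^ s = (Gi * Gi) ^ s * (Gi * G) := by rw [hG', mul_one]
      _ = G := by rw [← mul_assoc, e, one_mul]
  have hαG : G * α = α * G := by
    have h : Commute (Gi * Gi) α := by
      rw [hab]
      change α * β * α = α * (α * β)
      rw [mul_assoc, ← hcab]
    have := h.pow_left s
    rw [hGs] at this
    exact this
  have hβG : G * β = β * G := by
    have h : Commute (Gi * Gi) β := by
      rw [hab]
      change α * β * β = β * (α * β)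
      rw [hcab, mul_assoc, hcab]
    have := h.pow_left s
    rw [hGs] at this
    exact this
  have hα1 : α = 1 := by
    rw [hα] at hαG ⊢
    exact fam h2 κ k0 hκ haddκ G Gi hG σ hσκ m r ⟨s, hs⟩ (hσr m) hαG
  have hβ1 : β = 1 := by
    rw [hβ] at hβG ⊢
    exact fam h2 ν k0 hν haddν G Gi hG σ hσν n r ⟨s, hs⟩ (hσr n) hβG
  rw [hα1, hβ1, one_mul] at hab
  have hG2 : G ^ (2 ^ 1) = 1 := by
    calc G ^ (2 ^ 1) = G * G * (Gi * Gi) := by rw [hab, mul_one, pow_one, pow_two]
      _ = G * (G * Gi) * Gi := by simp only [mul_assoc]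
      _ = 1 := by rw [hG, mul_one, hG]
  exact odd_aux G hr hr2 hGr hG2

end Pool.Agent.H526R3.ML
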