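import Pool.Agent.H526R3.ML.Key2

set_option autoImplicit false

namespace Pool.Agent.H526R3.ML

open Pool.Agent.H687R3.AL Pool.Agent.H687R3.AL.AL Equiv

namespace Ext

variable {Q Q' : Type} (E : Ext Q Q') (hJ : ∀ (x : Q) (w : E.M), E.J x w.1 = 1)

include hJ

theorem Ti_one (x : Q) (m : E.M) : E.Ti x m.1 = 1 := by
  ext w
  have h := E.beta x m w
  rw [hJ] at h
  have h1 : w + m = m + E.Ti x m.1 w := h
  rw [add_comm] at h1
  exact (add_left_cancel h1).symm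

theorem op_M' (x : Q) (m u : E.M) :
    E.A.op (E.A.op x m.1) u.1 = E.A.op x (m + u).1 := by
  rw [E.op_M, E.Ti_one hJ]; rfl

theorem prod (x y : Q) (m n : E.M) : E.A.op (E.A.op x m.1) (E.A.op y n.1) =
    E.A.op (E.A.op x y) (E.T y x m + E.T (E.A.op x m.1) y n).1 := by
  rw [E.T_op, E.hA.comm (E.A.op x m.1) y, E.T_op, E.op_M' hJ, E.hA.comm y x]

theorem delta (x y : Q) (m n : E.M) :
    E.T y x m + E.T (E.A.op x m.1) y n = E.T x y n + E.T (E.A.op y n.1) x m := by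
  apply E.opL_inj (x := E.A.op x y)
  rw [← E.prod hJ, E.hA.comm, E.prod hJ, E.hA.comm y x]

theorem T_right (x y : Q) (m n : E.M) :
    E.T (E.A.op x m.1) (E.A.op y n.1) = E.T (E.A.op x m.1) y := by
  ext u
  have h1 := E.T_op (E.A.op x m.1) (E.A.op y n.1) u
  rw [E.op_M' hJ, E.T_op, E.T_op, E.op_M' hJ] at h1
  have h2 := E.opL_inj h1
  rw [map_add] at h2
  exact (add_left_cancel h2).symm

theorem T_right' (x y : Q) (n : E.M) : E.T x (E.A.op y n.1) = E.T x y := by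
  have := E.T_right hJ x y 0 n
  rwa [E.zero_val, E.A.idr] at this

omit hJ in
theorem J_symm (x y : Q) : E.J x y = E.J y x := by
  unfold J
  congr 1
  apply Subtype.ext
  change jj E.A x y = jj E.A y x
  have h1 : jj E.A x y = (jj E.A x y)⁻¹ := eq_inv_of_mul_eq_one_left (jj_sq E.hA x y)
  rw [h1]
  unfold jj
  group

omit hJ in
theorem Ti_congr {x y x' y' : Q} (h : E.T x y = E.T x' y') : E.Ti x y = E.Ti x' y' := by
  calc E.Ti x y = E.Ti x y * (E.T x' y' * E.Ti x' y') := by rw [E.T_Ti, mul_one]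
    _ = _ := by rw [← mul_assoc, ← h, E.Ti_T, one_mul]

/-- `κ m + k0` is additive -/
theorem kap_add (x y : Q) (m m' : E.M) :
    E.J (E.A.op x (m + m').1) y = E.J (E.A.op x m.1) y + E.J (E.A.op x m'.1) y + E.J x y := by
  have e : ∀ m : E.M, E.J (E.A.op x m.1) y = E.Ti y x * E.T (E.A.op x m.1) y := by
    intro m
    rw [E.J_eq, E.Ti_congr (E.T_right' hJ y x m)]
  have e0 : E.J x y = E.Ti y x * E.T x y := E.J_eq x y
  rw [e, e, e, e0, ← mul_add, ← mul_add]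
  congr 1
  ext n
  have d := E.delta hJ x y m n
  have d' := E.delta hJ x y m' n
  have d'' := E.delta hJ x y (m + m') n
  change E.T (E.A.op x (m + m').1) y n =
    E.T (E.A.op x m.1) y n + E.T (E.A.op x m'.1) y n + E.T x y n
  rw [map_add, map_add] at d''
  -- everything has order two
  have key : ∀ m : E.M, E.T (E.A.op x m.1) y n = E.T x y n + E.T (E.A.op y n.1) x m + E.T y x m := by
    intro m
    have d := E.delta hJ x y m n
    calc E.T (E.A.op x m.1) y n = (E.T y x m + E.T (E.A.op x m.1) y n) + E.T y x m := by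
          rw [add_comm (E.T y x m), add_assoc, E.add_self, add_zero]
      _ = _ := by rw [d]
  rw [key m, key m', key (m + m'), map_add, map_add]
  have h2 := E.add_self (E.T x y n)
  calc _ = E.T x y n + (E.T (E.A.op y n.1) x m + E.T (E.A.op y n.1) x m') +
          (E.T y x m + E.T y x m') + (E.T x y n + E.T x y n) := by rw [h2, add_zero]
    _ = _ := by abel

theorem J_prod (x y : Q) (m n : E.M) : E.J (E.A.op x m.1) (E.A.op y n.1) =
    E.J x (E.A.op y n.1) * E.J x y * E.J (E.A.op x m.1) y := by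
  have h1 : E.J (E.A.op x m.1) (E.A.op y n.1) =
      E.Ti (E.A.op y n.1) x * E.T (E.A.op x m.1) y := by
    rw [E.J_eq, E.T_right hJ, E.Ti_congr (E.T_right' hJ (E.A.op y n.1) x m)]
  have h2 : E.J x (E.A.op y n.1) = E.Ti (E.A.op y n.1) x * E.T x y := by
    rw [E.J_eq, E.T_right' hJ]
  have h3 : E.J x y = E.Ti x y * E.T y x := by rw [E.J_symm, E.J_eq]
  have h4 : E.J (E.A.op x m.1) y = E.Ti y x * E.T (E.A.op x m.1) y := by
    rw [E.J_eq, E.Ti_congr (E.T_right' hJ y x m)]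
  rw [h1, h2, h3, h4]
  calc E.Ti (E.A.op y n.1) x * E.T (E.A.op x m.1) y
      = E.Ti (E.A.op y n.1) x * ((E.T x y * E.Ti x y) * (E.T y x * E.Ti y x)) *
          E.T (E.A.op x m.1) y := by rw [E.T_Ti, E.T_Ti, mul_one, mul_one]
    _ = _ := by simp only [mul_assoc]

theorem kl2 [Finite Q] (x y : Q) {g : Perm Q} (hg : g ∈ E.H0) (hfg : ∀ z, E.f (g z) = E.f z)
    {r : ℕ} (hr : r.Prime) (hr2 : r ≠ 2) (hgr : g ^ r = 1)
    (hinv : jj E.A x y * g * jj E.A x y = g⁻¹) (m : E.M) : g m.1 = m.1 := by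
  obtain ⟨x0, hx0, hgx0⟩ := E.exists_fixed hfg hr hr2 hgr x
  obtain ⟨y0, hy0, hgy0⟩ := E.exists_fixed hfg hr hr2 hgr y
  obtain ⟨a, ha⟩ := E.mem_fibre (x := x0) (y := x) hx0
  obtain ⟨b, hb⟩ := E.mem_fibre (x := y0) (y := y) hy0
  set gH : E.H0 := ⟨g, hg⟩ with hgH
  set G : AddMonoid.End E.M := E.rho gH with hG
  set Gi : AddMonoid.End E.M := E.rho gH⁻¹ with hGi
  have hGGi : G * Gi = 1 := by rw [hG, hGi, ← map_mul, mul_inv_cancel, map_one]
  have hGiG : Gi * G = 1 := by rw [hG, hGi, ← map_mul, inv_mul_cancel, map_one]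
  have hGr : G ^ r = 1 := by
    rw [hG, ← map_pow, ← E.rho.map_one]; congr 1; exact Subtype.ext hgr
  have hinv' : E.J x y * G * E.J x y = Gi := by
    unfold J
    rw [hG, hGi, ← map_mul, ← map_mul]; congr 1; exact Subtype.ext hinv
  rw [← ha, ← hb, E.J_prod hJ] at hinv'
  obtain ⟨κ, hκ⟩ : ∃ κ : E.M → AddMonoid.End E.M, ∀ m, κ m = E.J (E.A.op x0 m.1) y0 :=
    ⟨_, fun _ => rfl⟩
  obtain ⟨ν, hν⟩ : ∃ ν : E.M → AddMonoid.End E.M, ∀ m, ν m = E.J x0 (E.A.op y0 m.1) :=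
    ⟨_, fun _ => rfl⟩
  obtain ⟨σ, hσ⟩ : ∃ σ : E.M → E.M, ∀ m, σ m = G m := ⟨_, fun _ => rfl⟩
  have a1 : ∀ m, κ m * κ m = 1 := fun m => by rw [hκ, E.J_sq]
  have a2 : ∀ m, ν m * ν m = 1 := fun m => by rw [hν, E.J_sq]
  have a3 : ∀ m m', κ (m + m') = κ m + κ m' + E.J x0 y0 := fun m m' => by
    rw [hκ, hκ, hκ, E.kap_add hJ]
  have a4 : ∀ m m', ν (m + m') = ν m + ν m' + E.J x0 y0 := fun m m' => by
    rw [hν, hν, hν, E.J_symm, E.kap_add hJ, E.J_symm x0, E.J_symm x0, E.J_symm x0]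
  have a5 : ∀ m n, (ν n * E.J x0 y0 * κ m) * (ν n * E.J x0 y0 * κ m) = 1 := fun m n => by
    rw [hν, hκ, ← E.J_prod hJ, E.J_sq]
  have a6 : ∀ m, G * κ m = κ (σ m) * G := by
    intro m
    have h := E.conj_J gH (E.A.op x0 m.1) y0
    change G * E.J (E.A.op x0 m.1) y0 = E.J (g (E.A.op x0 m.1)) (g y0) * G at h
    rw [aut_apply hg.1, hgx0, hgy0] at h
    rw [hκ, hκ, h, hσ]; rfl
  have a7 : ∀ m, G * ν m = ν (σ m) * G := by
    intro m
    have h := E.conj_J gH x0 (E.A.op y0 m.1)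
    change G * E.J x0 (E.A.op y0 m.1) = E.J (g x0) (g (E.A.op y0 m.1)) * G at h
    rw [aut_apply hg.1, hgx0, hgy0] at h
    rw [hν, hν, h, hσ]; rfl
  have a8 : G * E.J x0 y0 = E.J x0 y0 * G := by
    have h := E.conj_J gH x0 y0
    change G * E.J x0 y0 = E.J (g x0) (g y0) * G at h
    rwa [hgx0, hgy0] at h
  have a9 : ∀ m, σ^[r] m = m := by
    intro m
    have h : ∀ k : ℕ, σ^[k] m = (G ^ k) m := by
      intro k
      induction k with
      | zero => rfl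
      | succ k ih => rw [Function.iterate_succ_apply', ih, pow_succ', hσ]; rfl
    rw [h, hGr]; rfl
  have a10 : (ν b * E.J x0 y0 * κ a) * G * (ν b * E.J x0 y0 * κ a) = Gi := by
    rw [hν, hκ]; exact hinv'
  have hG1 : G = 1 :=
    ring_main E.add_self' κ ν (E.J x0 y0) a1 a2 (E.J_sq _ _) a3 a4 a5 G Gi hGGi hGiG σ a6 a7 a8
      r hr hr2 a9 hGr a b a10
  have : (G m).1 = g m.1 := rfl
  rw [← this, hG1]; rfl

end Ext

end Pool.Agent.H526R3.ML
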