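import Pool.Agent.H526R3.ML.Key3

set_option autoImplicit false

namespace Pool.Agent.H526R3.ML

open Pool.Agent.H687R3.AL Pool.Agent.H687R3.AL.AL Equiv MulAction

theorem normal_le_sylow {G : Type} [Group G] [Finite G] (P : Sylow 2 G) (N : Subgroup G)
    [N.Normal] (hN : IsPGroup 2 N) : N ≤ P := by
  have h1 : IsPGroup 2 (N ⊔ (P : Subgroup G) : Subgroup G) :=
    IsPGroup.to_sup_of_normal_left hN P.isPGroup'
  have h2 := P.is_maximal' h1 le_sup_right
  rw [← h2]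
  exact le_sup_left

theorem bs_aux {G : Type} [Group G] [Finite G] (τ : G) (hτ : τ * τ = 1)
    (hcon : ∀ g : G, ∀ r : ℕ, r.Prime → r ≠ 2 → g ^ r = 1 → τ * g * τ = g⁻¹ → g = 1) (h : G) :
    ∃ n, (τ * (h * τ * h⁻¹)) ^ 2 ^ n = 1 := by
  have hτi : τ⁻¹ = τ := inv_eq_of_mul_eq_one_left hτ
  obtain ⟨v, hv⟩ : ∃ v, v = τ * (h * τ * h⁻¹) := ⟨_, rfl⟩
  rw [← hv]
  have h1 : τ * v * τ⁻¹ = v⁻¹ := by
    rw [hv, mul_inv_rev, mul_inv_rev, mul_inv_rev, inv_inv, hτi]
    simp only [← mul_assoc, hτ, one_mul]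
  have hpos : 0 < orderOf v := orderOf_pos v
  obtain ⟨a, s, hs, hN⟩ := Nat.exists_eq_two_pow_mul_odd hpos.ne'
  by_cases hs1 : s = 1
  · refine ⟨a, ?_⟩
    rw [hs1, mul_one] at hN
    rw [← hN]
    exact pow_orderOf_eq_one v
  · exfalso
    obtain ⟨r, hr, hrs⟩ := Nat.exists_prime_and_dvd hs1
    have hr2 : r ≠ 2 := by
      rintro rfl
      obtain ⟨c, hc⟩ := hs
      omega
    have hrN : r ∣ orderOf v := by rw [hN]; exact hrs.mul_left _
    obtain ⟨c, hc⟩ := hrN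
    have h2 : (v ^ c) ^ r = 1 := by
      rw [← pow_mul, mul_comm c r, ← hc]
      exact pow_orderOf_eq_one v
    have h3 : τ * v ^ c * τ = (v ^ c)⁻¹ := by
      calc τ * v ^ c * τ = τ * v ^ c * τ⁻¹ := by rw [hτi]
        _ = (τ * v * τ⁻¹) ^ c := (conj_pow).symm
        _ = (v ^ c)⁻¹ := by rw [h1, inv_pow]
    have h4 := hcon _ r hr hr2 h2 h3
    have h5 := orderOf_dvd_of_pow_eq_one h4
    have hc0 : 0 < c := by
      rcases Nat.eq_zero_or_pos c with h | h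
      · rw [h, mul_zero] at hc; omega
      · exact h
    have h6 := Nat.le_of_dvd hc0 h5
    rw [hc] at h6
    have := hr.two_le
    nlinarith

variable {Q Q' : Type}

theorem mem_sylow [Finite Q] {A : AL Q} (hA : CE A) (P : Sylow 2 (K A)) (x y : Q)
    (hcon : ∀ g ∈ K A, ∀ r : ℕ, r.Prime → r ≠ 2 → g ^ r = 1 →
      jj A x y * g * jj A x y = g⁻¹ → g = 1) :
    (⟨jj A x y, jj_mem_K x y⟩ : K A) ∈ P := by
  have hsq : (⟨jj A x y, jj_mem_K x y⟩ : K A) * ⟨jj A x y, jj_mem_K x y⟩ = 1 :=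
    Subtype.ext (jj_sq hA x y)
  have h1 := taskBaerSuzuki (K A) ⟨jj A x y, jj_mem_K x y⟩ hsq
    (bs_aux _ hsq (by
      intro g r hr hr2 hgr hinv
      apply Subtype.ext
      exact hcon g.1 g.2 r hr hr2 (congrArg Subtype.val hgr) (congrArg Subtype.val hinv)))
  exact normal_le_sylow P _ h1 (Subgroup.subset_normalClosure rfl)

namespace Ext

variable (E : Ext Q Q')

theorem step [Finite Q] (hB : IsPGroup 2 (K E.B))
    (hmin : ∀ S : Set Q, (∀ s ∈ S, E.f s = E.B.e) → (∀ s ∈ S, ∀ t ∈ S, E.A.op s t ∈ S) →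
      (∀ x y, ∀ s ∈ S, TT E.A x y s ∈ S) → (∃ s ∈ S, s ≠ E.A.e) → ∀ m, E.f m = E.B.e → m ∈ S) :
    IsPGroup 2 (K E.A) := by
  obtain ⟨P⟩ : Nonempty (Sylow 2 (K E.A)) := inferInstance
  -- part 1
  have p1 : ∀ (x : Q) (w : E.M), (⟨jj E.A x w.1, jj_mem_K x w.1⟩ : K E.A) ∈ P := by
    intro x w
    apply mem_sylow E.hA
    intro g hg r hr hr2 hgr hinv
    have hfg := E.triv_quot hB hg hr hr2 hgr
    exact E.eq_one (E.K_H0 hg) hfg hr hr2 hgr
      (fun m => E.kl1 x w (E.K_H0 hg) hfg hr hr2 hgr hinv m)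
  let Rg : Subgroup (Perm Q) := Subgroup.closure {g | ∃ (x : Q) (w : E.M), g = jj E.A x w.1}
  have hRP : Rg ≤ (P : Subgroup (K E.A)).map (K E.A).subtype := by
    rw [Subgroup.closure_le]
    rintro _ ⟨x, w, rfl⟩
    exact ⟨_, p1 x w, rfl⟩
  have hPm : IsPGroup 2 ((P : Subgroup (K E.A)).map (K E.A).subtype) := P.isPGroup'.map _
  have hRp : IsPGroup 2 Rg := hPm.to_le hRP
  have hRK : Rg ≤ K E.A := by
    rw [Subgroup.closure_le]
    rintro _ ⟨x, w, rfl⟩
    exact jj_mem_K _ _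
  have hJ : ∀ (x : Q) (w : E.M), E.J x w.1 = 1 := by
    by_cases htriv : ∀ m : E.M, m = 0
    · intro x w; ext m
      rw [htriv (E.J x w.1 m), htriv m]; rfl
    · push Not at htriv
      obtain ⟨m0, hm0⟩ := htriv
      let _ : MulAction Rg E.M :=
        { smul := fun g m => ⟨g.1 m.1, E.H0_ker (E.K_H0 (hRK g.2)) m.2⟩
          one_smul := fun m => rfl
          mul_smul := fun a b m => rfl }
      have : Finite E.M := Subtype.finite
      have : Fact (Nat.Prime 2) := ⟨Nat.prime_two⟩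
      have hdvd : 2 ∣ Nat.card E.M := by
        obtain ⟨k, hk⟩ := E.card_M
        rcases Nat.eq_zero_or_pos k with h | h
        · rw [h, pow_zero] at hk
          have := (Nat.card_eq_one_iff_unique.1 hk).1
          exact absurd (Subsingleton.elim m0 0) hm0
        · rw [hk]; exact dvd_pow_self 2 h.ne'
      have hfix0 : (0 : E.M) ∈ fixedPoints Rg E.M := by
        intro g
        exact Subtype.ext (aut_e (E.K_H0 (hRK g.2)).1)
      obtain ⟨b, hb, hb0⟩ :=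
        hRp.exists_fixed_point_of_prime_dvd_card_of_fixed_point E.M hdvd hfix0
      have hS := hmin {s | E.f s = E.B.e ∧ ∀ (x : Q) (w : E.M), jj E.A x w.1 s = s}
        (fun s hs => hs.1)
        (by
          rintro s ⟨hs1, hs2⟩ t ⟨ht1, ht2⟩
          refine ⟨by rw [E.hf, hs1, ht1, E.B.idl], fun x w => ?_⟩
          rw [aut_apply (jj_mem E.hA x w.1), hs2, ht2])
        (by
          rintro x y s ⟨hs1, hs2⟩
          have hT := E.TT_H0 x y
          refine ⟨E.H0_ker hT hs1, fun x' w => ?_⟩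
          have h1 := conj_jj hT.1 ((TT E.A x y)⁻¹ x') ((TT E.A x y)⁻¹ w.1)
          have e1 : ∀ z, (TT E.A x y) ((TT E.A x y)⁻¹ z) = z := fun z => by simp
          have e2 : (TT E.A x y)⁻¹ (TT E.A x y s) = s := by simp
          rw [e1, e1] at h1
          have h3 : jj E.A ((TT E.A x y)⁻¹ x') ((TT E.A x y)⁻¹ w.1) s = s :=
            hs2 _ ⟨_, E.H0_ker (E.H0.inv_mem hT) w.2⟩
          rw [← h1, Perm.mul_apply, Perm.mul_apply, e2, h3])
        ⟨b.1, ⟨b.2, fun x w => congrArg Subtype.val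
          (hb ⟨jj E.A x w.1, Subgroup.subset_closure ⟨x, w, rfl⟩⟩)⟩, fun h => hb0 (Subtype.ext h.symm)⟩
      intro x w
      ext m
      exact Subtype.ext ((hS m.1 m.2).2 x w)
  -- part 2
  have p2 : ∀ x y : Q, (⟨jj E.A x y, jj_mem_K x y⟩ : K E.A) ∈ P := by
    intro x y
    apply mem_sylow E.hA
    intro g hg r hr hr2 hgr hinv
    have hfg := E.triv_quot hB hg hr hr2 hgr
    exact E.eq_one (E.K_H0 hg) hfg hr hr2 hgr
      (fun m => E.kl2 hJ x y (E.K_H0 hg) hfg hr hr2 hgr hinv m)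
  refine hPm.to_le ?_
  conv_lhs => rw [K]
  rw [Subgroup.closure_le]
  rintro _ ⟨x, y, rfl⟩
  exact ⟨_, p2 x y, rfl⟩

end Ext

theorem fixed_of_pgroup [Finite Q] {A : AL Q} (hA : CE A) (hK : IsPGroup 2 (K A))
    (hne : ∃ x : Q, x ≠ A.e) :
    ∃ a, a ≠ A.e ∧ ∀ x y, A.op (A.op x a) y = A.op x (A.op a y) := by
  have : Fact (Nat.Prime 2) := ⟨Nat.prime_two⟩
  obtain ⟨n, hn⟩ := card_exp_two taskDiamond A hA.comm hA.exp
  have hdvd : 2 ∣ Nat.card Q := by
    rcases Nat.eq_zero_or_pos n with h | h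
    · rw [h, pow_zero] at hn
      have := (Nat.card_eq_one_iff_unique.1 hn).1
      obtain ⟨x, hx⟩ := hne
      exact absurd (Subsingleton.elim x A.e) hx
    · rw [hn]; exact dvd_pow_self 2 h.ne'
  have hfix0 : A.e ∈ fixedPoints (K A) Q := fun g => aut_e (K_le hA g.2)
  obtain ⟨a, ha, hae⟩ := hK.exists_fixed_point_of_prime_dvd_card_of_fixed_point Q hdvd hfix0
  refine ⟨a, hae.symm, fun x y => ?_⟩
  have h1 : jj A x y a = a := ha ⟨jj A x y, jj_mem_K x y⟩
  have h2 := jj_op hA x y a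
  rw [h1] at h2
  rw [hA.comm, h2, hA.comm a y]

end Pool.Agent.H526R3.ML
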