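import Pool.Agent.H526R3.ML.Key4

set_option autoImplicit false

namespace Pool.Agent.H526R3.ML

open Pool.Agent.H687R3.AL Pool.Agent.H687R3.AL.AL Equiv

/-- a surjective image of an automorphic loop is automorphic -/
def img {Q Q' : Type} (A : AL Q) (op' : Q' → Q' → Q') (e' : Q') (f : Q → Q')
    (hs : Function.Surjective f)
    (hf : ∀ x y, f (A.op x y) = op' (f x) (f y)) (idl : ∀ x, op' e' x = x)
    (idr : ∀ x, op' x e' = x)
    (bijL : ∀ x, Function.Bijective (fun y => op' x y))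
    (bijR : ∀ x, Function.Bijective (fun y => op' y x)) : AL Q' where
  op := op'
  e := e'
  idl := idl
  idr := idr
  bijL := bijL
  bijR := bijR
  autL := by
    intro x y z₁ z₂ w₁ w₂ h1 h2
    obtain ⟨x, rfl⟩ := hs x; obtain ⟨y, rfl⟩ := hs y
    obtain ⟨z₁, rfl⟩ := hs z₁; obtain ⟨z₂, rfl⟩ := hs z₂
    obtain ⟨v₁, hv₁⟩ := (A.bijL (A.op y x)).2 (A.op y (A.op x z₁))
    obtain ⟨v₂, hv₂⟩ := (A.bijL (A.op y x)).2 (A.op y (A.op x z₂))
    have g1 : f (A.op (A.op y x) v₁) = f (A.op y (A.op x z₁)) := congrArg f hv₁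
    have g2 : f (A.op (A.op y x) v₂) = f (A.op y (A.op x z₂)) := congrArg f hv₂
    simp only [hf] at g1 g2
    have e1 : w₁ = f v₁ := (bijL (op' (f y) (f x))).1 (h1.trans g1.symm)
    have e2 : w₂ = f v₂ := (bijL (op' (f y) (f x))).1 (h2.trans g2.symm)
    have h3 := congrArg f (A.autL x y z₁ z₂ v₁ v₂ hv₁ hv₂)
    simp only [hf] at h3
    rw [e1, e2]; exact h3
  autR := by
    intro x y z₁ z₂ w₁ w₂ h1 h2
    obtain ⟨x, rfl⟩ := hs x; obtain ⟨y, rfl⟩ := hs y
    obtain ⟨z₁, rfl⟩ := hs z₁; obtain ⟨z₂, rfl⟩ := hs z₂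
    obtain ⟨v₁, hv₁⟩ := (A.bijR (A.op x y)).2 (A.op (A.op z₁ x) y)
    obtain ⟨v₂, hv₂⟩ := (A.bijR (A.op x y)).2 (A.op (A.op z₂ x) y)
    have g1 : f (A.op v₁ (A.op x y)) = f (A.op (A.op z₁ x) y) := congrArg f hv₁
    have g2 : f (A.op v₂ (A.op x y)) = f (A.op (A.op z₂ x) y) := congrArg f hv₂
    simp only [hf] at g1 g2
    have e1 : w₁ = f v₁ := (bijR (op' (f x) (f y))).1 (h1.trans g1.symm)
    have e2 : w₂ = f v₂ := (bijR (op' (f x) (f y))).1 (h2.trans g2.symm)
    have h3 := congrArg f (A.autR x y z₁ z₂ v₁ v₂ hv₁ hv₂)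
    simp only [hf] at h3
    rw [e1, e2]; exact h3
  autT := by
    intro x z₁ z₂ w₁ w₂ h1 h2
    obtain ⟨x, rfl⟩ := hs x
    obtain ⟨z₁, rfl⟩ := hs z₁; obtain ⟨z₂, rfl⟩ := hs z₂
    obtain ⟨v₁, hv₁⟩ := (A.bijR x).2 (A.op x z₁)
    obtain ⟨v₂, hv₂⟩ := (A.bijR x).2 (A.op x z₂)
    have g1 : f (A.op v₁ x) = f (A.op x z₁) := congrArg f hv₁
    have g2 : f (A.op v₂ x) = f (A.op x z₂) := congrArg f hv₂
    simp only [hf] at g1 g2
    have e1 : w₁ = f v₁ := (bijR (f x)).1 (h1.trans g1.symm)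
    have e2 : w₂ = f v₂ := (bijR (f x)).1 (h2.trans g2.symm)
    have h3 := congrArg f (A.autT x z₁ z₂ v₁ v₂ hv₁ hv₂)
    simp only [hf] at h3
    rw [e1, e2]; exact h3

/-- closed under products and inner mappings -/
structure NormS {Q : Type} (A : AL Q) (S : Set Q) : Prop where
  e : A.e ∈ S
  op : ∀ s ∈ S, ∀ t ∈ S, A.op s t ∈ S
  TT : ∀ x y, ∀ s ∈ S, TT A x y s ∈ S

theorem NormS.TTinv {Q : Type} [Finite Q] {A : AL Q} {S : Set Q} (h : NormS A S) (x y s : Q)
    (hs : s ∈ S) : (ML.TT A x y)⁻¹ s ∈ S := by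
  let F : S → S := fun s => ⟨ML.TT A x y s.1, h.TT x y s.1 s.2⟩
  have hF : Function.Injective F := by
    intro a b hab
    have h1 : ML.TT A x y a.1 = ML.TT A x y b.1 := congrArg Subtype.val hab
    exact Subtype.ext ((ML.TT A x y).injective h1)
  have hFs := Finite.surjective_of_injective hF
  obtain ⟨t, ht⟩ := hFs ⟨s, hs⟩
  have h1 : ML.TT A x y t.1 = s := congrArg Subtype.val ht
  have h2 : (ML.TT A x y)⁻¹ s = t.1 := by
    rw [Perm.inv_eq_iff_eq, h1]
  rw [h2]
  exact t.2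

theorem assoc' {Q : Type} (A : AL Q) (x s t : Q) :
    A.op (A.op x s) t = A.op x (A.op s ((TT A x s)⁻¹ t)) := by
  rw [← TT_op A x s]
  simp

theorem exists_quot {Q : Type} [Finite Q] {A : AL Q} (hA : CE A) (S : Set Q) (h : NormS A S) :
    ∃ (P : Type) (B : AL P) (π : Q → P), Function.Surjective π ∧
      (∀ x y, π (A.op x y) = B.op (π x) (π y)) ∧
      (∀ x y, π x = π y ↔ ∃ s ∈ S, y = A.op x s) := by
  let s : Setoid Q :=
    { r := fun x y => ∃ s ∈ S, y = A.op x s
      iseqv :=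
        { refl := fun x => ⟨A.e, h.e, (A.idr x).symm⟩
          symm := by
            rintro x y ⟨s, hs, rfl⟩
            refine ⟨TT A x s s, h.TT x s s hs, ?_⟩
            rw [TT_op, hA.exp, A.idr]
          trans := by
            rintro x y z ⟨s, hs, rfl⟩ ⟨t, ht, rfl⟩
            exact ⟨_, h.op s hs _ (h.TTinv x s t ht), assoc' A x s t⟩ } }
  have hopL : ∀ a b c, s b c → s (A.op a b) (A.op a c) := by
    rintro a b c ⟨t, ht, rfl⟩
    exact ⟨_, h.TT a b t ht, (TT_op A a b t).symm⟩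
  have hopL' : ∀ a b c, s (A.op a b) (A.op a c) → s b c := by
    rintro a b c ⟨t, ht, h1⟩
    rw [assoc'] at h1
    exact ⟨_, h.TTinv a b t ht, (A.bijL a).1 h1⟩
  have hopR : ∀ a b c, s b c → s (A.op b a) (A.op c a) := by
    intro a b c h1
    rw [hA.comm b a, hA.comm c a]
    exact hopL a b c h1
  have hop : ∀ a b c d, s a b → s c d → s (A.op a c) (A.op b d) := by
    intro a b c d h1 h2
    exact s.trans (hopL a c d h2) (hopR d a b h1)
  let P := Quotient s
  let f : Q → P := Quotient.mk s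
  have hf : ∀ x y, f x = f y ↔ s x y := fun x y => Quotient.eq
  let opP : P → P → P := Quotient.map₂ A.op (fun a b h1 c d h2 => hop a b c d h1 h2)
  have hopP : ∀ x y, f (A.op x y) = opP (f x) (f y) := fun x y => rfl
  have hsurj : Function.Surjective f := fun q => Quotient.exists_rep q
  have hcommP : ∀ p q, opP p q = opP q p := by
    intro p q
    obtain ⟨x, rfl⟩ := hsurj p; obtain ⟨y, rfl⟩ := hsurj q
    rw [← hopP, ← hopP, hA.comm]
  have hidl : ∀ x, opP (f A.e) x = x := by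
    intro q; obtain ⟨x, rfl⟩ := hsurj q
    rw [← hopP, A.idl]
  have hbijL : ∀ x, Function.Bijective (fun y => opP x y) := by
    intro q; obtain ⟨x, rfl⟩ := hsurj q
    constructor
    · intro a b hab
      obtain ⟨a, rfl⟩ := hsurj a; obtain ⟨b, rfl⟩ := hsurj b
      have h1 : f (A.op x a) = f (A.op x b) := hab
      rw [hf] at h1 ⊢
      exact hopL' x a b h1
    · intro a
      obtain ⟨a, rfl⟩ := hsurj a
      obtain ⟨b, hb⟩ := (A.bijL x).2 a
      exact ⟨f b, by change f (A.op x b) = f a; rw [← hb]⟩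
  refine ⟨P, img A opP (f A.e) f hsurj hopP hidl (fun x => by rw [hcommP, hidl]) hbijL
    (fun x => ?_), f, hsurj, hopP, fun x y => hf x y⟩
  have e1 : (fun y => opP y x) = fun y => opP x y := funext fun y => hcommP y x
  rw [e1]
  exact hbijL x

theorem map_e {Q Q' : Type} {A : AL Q} {B : AL Q'} (hA : CE A) (hB : CE B) (f : Q → Q')
    (hf : ∀ x y, f (A.op x y) = B.op (f x) (f y)) : f A.e = B.e := by
  have := hf A.e A.e
  rwa [A.idl, hB.exp] at this

theorem CE_img {Q Q' : Type} {A : AL Q} {B : AL Q'} (hA : CE A) (f : Q → Q')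
    (hs : Function.Surjective f)
    (hf : ∀ x y, f (A.op x y) = B.op (f x) (f y)) : CE B := by
  constructor
  · intro p q
    obtain ⟨x, rfl⟩ := hs p; obtain ⟨y, rfl⟩ := hs q
    rw [← hf, ← hf, hA.comm]
  · intro p
    obtain ⟨x, rfl⟩ := hs p
    have h1 : B.op (f A.e) (f x) = B.op B.e (f x) := by rw [← hf, A.idl, B.idl]
    have h2 : f A.e = B.e := (B.bijR (f x)).1 h1
    rw [← hf, hA.exp, h2]

/-- the extension step without minimality -/
theorem ext_general {Q' : Type} (B : AL Q') (hB : CE B) (hKB : IsPGroup 2 (K B)) (n : ℕ) :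
    ∀ (Q : Type) [Finite Q] (A : AL Q) (f : Q → Q'), CE A →
      (∀ x y, f (A.op x y) = B.op (f x) (f y)) → Function.Surjective f →
      (∀ m n p, f m = B.e → f n = B.e → f p = B.e → A.op (A.op m n) p = A.op m (A.op n p)) →
      Nat.card Q = n → IsPGroup 2 (K A) := by
  induction n using Nat.strong_induction_on with
  | _ n ih =>
    intro Q _ A f hA hf hs hass hn
    obtain ⟨E, hEA, hEB, hEf⟩ : ∃ E : Ext Q Q', E.A = A ∧ E.B = B ∧ E.f = f :=
      ⟨⟨A, B, f, hf, hs, hA, hB, hass⟩, rfl, rfl, rfl⟩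
    by_cases htriv : ∀ m, f m = B.e → m = A.e
    · rw [← hEA]
      refine E.step (by rw [hEB]; exact hKB) ?_
      rintro S hS1 - - ⟨s, hs, hse⟩
      rw [hEA] at hse
      refine absurd (htriv s ?_) hse
      rw [← hEf, ← hEB]
      exact hS1 s hs
    · push Not at htriv
      obtain ⟨m0, hm0, hm0e⟩ := htriv
      let F : Set (Set Q) := {S | (∀ s ∈ S, f s = B.e) ∧ (∀ s ∈ S, ∀ t ∈ S, A.op s t ∈ S) ∧
        (∀ x y, ∀ s ∈ S, TT A x y s ∈ S) ∧ ∃ s ∈ S, s ≠ A.e}
      have hF : {m | f m = B.e} ∈ F := by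
        refine ⟨fun s hs => hs, ?_, ?_, ⟨m0, hm0, hm0e⟩⟩
        · intro s hs t ht
          change f _ = _
          rw [hf, hs, ht, B.idl]
        · intro x y s hs
          have := E.H0_ker (E.TT_H0 x y) (m := s) (by rw [hEf, hEB]; exact hs)
          rw [hEf, hEB, hEA] at this
          exact this
      obtain ⟨S, hSF, hSmin⟩ := (Set.toFinite F).exists_minimal ⟨_, hF⟩
      obtain ⟨hS1, hS2, hS3, s0, hs0, hs0e⟩ := hSF
      have hSn : NormS A S := ⟨by
        have := hS2 s0 hs0 s0 hs0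
        rwa [hA.exp] at this, hS2, hS3⟩
      obtain ⟨P, C, π, hπs, hπ, hπS⟩ := exists_quot hA S hSn
      have hC : CE C := CE_img hA π hπs hπ
      have hπe : π A.e = C.e := map_e hA hC π hπ
      have hfe : f A.e = B.e := map_e hA hB f hf
      have hfac : ∀ x y, π x = π y → f x = f y := by
        intro x y h
        obtain ⟨s, hs, rfl⟩ := (hπS x y).1 h
        rw [hf, hS1 s hs, B.idr]
      have hker : ∀ m, π m = C.e → m ∈ S := by
        intro m hm
        rw [← hπe] at hm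
        obtain ⟨s, hs, h1⟩ := (hπS A.e m).1 hm.symm
        rw [A.idl] at h1
        rw [h1]; exact hs
      obtain ⟨g, hg⟩ : ∃ g : P → Q', ∀ x, g (π x) = f x :=
        ⟨fun p => f (Function.surjInv hπs p), fun x => hfac _ _ (Function.surjInv_eq hπs (π x))⟩
      have : Finite P := Finite.of_surjective π hπs
      have hlt : Nat.card P < n := by
        rw [← hn]
        by_contra hcon
        push Not at hcon
        have hbij := hπs.bijective_of_nat_card_le hcon
        apply hs0e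
        apply hbij.1
        exact ((hπS A.e s0).2 ⟨s0, hs0, (A.idl s0).symm⟩).symm
      have hKC : IsPGroup 2 (K C) := by
        refine ih (Nat.card P) hlt P C g hC ?_ ?_ ?_ rfl
        · intro p q
          obtain ⟨x, rfl⟩ := hπs p; obtain ⟨y, rfl⟩ := hπs q
          rw [← hπ, hg, hg, hg, hf]
        · intro q
          obtain ⟨x, rfl⟩ := hs q
          exact ⟨π x, hg x⟩
        · intro p q r hp hq hr
          obtain ⟨x, rfl⟩ := hπs p; obtain ⟨y, rfl⟩ := hπs q; obtain ⟨z, rfl⟩ := hπs r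
          rw [hg] at hp hq hr
          rw [← hπ, ← hπ, ← hπ, ← hπ, hass x y z hp hq hr]
      have hass2 : ∀ m n p, π m = C.e → π n = C.e → π p = C.e →
          A.op (A.op m n) p = A.op m (A.op n p) := fun m n p hm hn hp =>
        hass m n p (hS1 m (hker m hm)) (hS1 n (hker n hn)) (hS1 p (hker p hp))
      refine Ext.step ⟨A, C, π, hπ, hπs, hA, hC, hass2⟩ hKC ?_
      intro T hT1 hT2 hT3 hT4 m hm
      have hTF : T ∈ F := ⟨fun s hs => hS1 s (hker s (hT1 s hs)), hT2, hT3, hT4⟩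
      have hle : S ≤ T := hSmin hTF (fun s hs => hker s (hT1 s hs))
      exact hle (hker m hm)

end Pool.Agent.H526R3.ML
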